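import Pool.Agent.Helper45.HD.Dig

set_option autoImplicit false

/-! Hidden digits: additive against digit influence. -/

namespace Pool.Agent.Helper45.HD

open Finset
open Pool.Agent.Helper57.U2 (digit)

/-- additive influence -/
def Aj (b K j : ℕ) (F : ℕ → ℝ) : ℝ := ∑ n ∈ range (b ^ K), (F n - F ((n + b ^ j) % b ^ K)) ^ 2

/-- digit influence -/
noncomputable def Ij (b K i : ℕ) (F : ℕ → ℝ) : ℝ := ∑ n ∈ range (b ^ K), (F n - Ed b i F n) ^ 2

lemma Ij_nonneg (b K i : ℕ) (F : ℕ → ℝ) : 0 ≤ Ij b K i F := sum_nonneg fun _ _ => sq_nonneg _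

lemma Aj_top (b K : ℕ) (F : ℕ → ℝ) : Aj b K K F = 0 := by
  refine sum_eq_zero fun n hn => ?_
  rw [Nat.add_mod_right, Nat.mod_eq_of_lt (mem_range.1 hn), sub_self]
  norm_num

lemma Ij_Ed_le {b i j K : ℕ} (hb : 2 ≤ b) (hj : j < K) (F : ℕ → ℝ) :
    Ij b K i (Ed b j F) ≤ Ij b K i F := by
  unfold Ij
  refine le_trans (le_of_eq (sum_congr rfl fun n _ => ?_))
    (norm_Ed_le hb hj fun m => F m - Ed b i F m)
  rw [Ed_sub, Ed_comm hb]

lemma Aj_step {b j K : ℕ} (hb : 2 ≤ b) (F : ℕ → ℝ) :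
    Aj b K j F ≤ 12 * Ij b K j F + 3 / 2 * Aj b K j (Ed b j F) := by
  have hx : 0 < b ^ K := by positivity
  have h1 : ∀ n ∈ range (b ^ K), (F n - F ((n + b ^ j) % b ^ K)) ^ 2 ≤
      (6 * (F n - Ed b j F n) ^ 2 +
        6 * (F ((n + b ^ j) % b ^ K) - Ed b j F ((n + b ^ j) % b ^ K)) ^ 2) +
      3 / 2 * (Ed b j F n - Ed b j F ((n + b ^ j) % b ^ K)) ^ 2 := by
    intro n _
    obtain ⟨u, hu⟩ : ∃ u, u = F n - Ed b j F n := ⟨_, rfl⟩
    obtain ⟨v, hv⟩ : ∃ v, v = F ((n + b ^ j) % b ^ K) - Ed b j F ((n + b ^ j) % b ^ K) := ⟨_, rfl⟩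
    obtain ⟨w, hw⟩ : ∃ w, w = Ed b j F n - Ed b j F ((n + b ^ j) % b ^ K) := ⟨_, rfl⟩
    have h2 : F n - F ((n + b ^ j) % b ^ K) = u - v + w := by
      rw [hu, hv, hw]
      ring
    rw [h2, ← hu, ← hv, ← hw]
    nlinarith [sq_nonneg (2 * (u - v) - w), sq_nonneg (u + v)]
  unfold Aj Ij
  refine (sum_le_sum h1).trans (le_of_eq ?_)
  rw [sum_add_distrib, sum_add_distrib, ← mul_sum, ← mul_sum, ← mul_sum,
    sum_mod_shift (b ^ K) (b ^ j) hx fun m => (F m - Ed b j F m) ^ 2]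
  ring

lemma setd_zero_mod {b j K : ℕ} (hb : 2 ≤ b) (hj : j < K) (m : ℕ) :
    setd b j 0 m % b ^ K = setd b j 0 (m % b ^ K) := by
  have hx : 0 < b ^ K := by positivity
  obtain ⟨t, rfl⟩ : ∃ t, K = j + 1 + t := ⟨K - (j + 1), by omega⟩
  have hpos' : 0 < b ^ (j + 1) := by positivity
  have hlt := setd_lt (u := 0) hb (by omega) hj (Nat.mod_lt m hx)
  have h1 : m = m % b ^ (j + 1 + t) + b ^ (j + 1) * (b ^ t * (m / b ^ (j + 1 + t))) := by
    have := Nat.mod_add_div m (b ^ (j + 1 + t))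
    rw [← Nat.mul_assoc, ← pow_add]
    exact this.symm
  have h2 : m / b ^ (j + 1) = m % b ^ (j + 1 + t) / b ^ (j + 1) +
      b ^ t * (m / b ^ (j + 1 + t)) := by
    conv_lhs => rw [h1]
    rw [Nat.add_mul_div_left _ _ hpos']
  have h3 : m % b ^ j = m % b ^ (j + 1 + t) % b ^ j := by
    rw [Nat.mod_mod_of_dvd]
    exact pow_dvd_pow b (by omega)
  have h4 : setd b j 0 m = setd b j 0 (m % b ^ (j + 1 + t)) +
      b ^ (j + 1 + t) * (m / b ^ (j + 1 + t)) := by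
    have e : ∀ m, setd b j 0 m = m % b ^ j + 0 * b ^ j + b ^ (j + 1) * (m / b ^ (j + 1)) :=
      fun m => rfl
    rw [e m, e (m % b ^ (j + 1 + t)), h2, ← h3, pow_add b (j + 1) t]
    ring
  rw [h4, Nat.add_mul_mod_self_left, Nat.mod_eq_of_lt hlt]

lemma Aj_carry {b j K : ℕ} (hb : 2 ≤ b) (hj : j < K) (F : ℕ → ℝ) :
    Aj b K j (Ed b j F) = 1 / b * Aj b K (j + 1) (Ed b j F) := by
  have hx : 0 < b ^ K := by positivity
  have hb0 : (b : ℝ) ≠ 0 := by
    have : b ≠ 0 := by omega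
    exact_mod_cast this
  obtain ⟨G, hG⟩ : ∃ G, G = Ed b j F := ⟨_, rfl⟩
  have hinv : ∀ u < b, ∀ n, G (setd b j u n) = G n := by
    intro u hu n
    rw [hG, Ed_setd hb hu]
  rw [← hG]
  unfold Aj
  rw [← sum_Ed hb hj, mul_sum]
  refine sum_congr rfl fun n hn => ?_
  have hn' := mem_range.1 hn
  obtain ⟨b', rfl⟩ : ∃ b', b = b' + 1 := ⟨b - 1, by omega⟩
  unfold Ed
  rw [sum_range_succ]
  have h1 : ∀ u ∈ range b', (G (setd (b' + 1) j u n) -
      G ((setd (b' + 1) j u n + (b' + 1) ^ j) % (b' + 1) ^ K)) ^ 2 = 0 := by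
    intro u hu
    have hu' := mem_range.1 hu
    have h2 : setd (b' + 1) j u n + (b' + 1) ^ j = setd (b' + 1) j (u + 1) n := by
      unfold setd
      ring
    have h3 := setd_lt (u := u + 1) hb (by omega) hj hn'
    rw [h2, Nat.mod_eq_of_lt h3, hinv u (by omega), hinv (u + 1) (by omega), sub_self]
    norm_num
  rw [sum_eq_zero h1, zero_add]
  beta_reduce
  have h4 : setd (b' + 1) j b' n + (b' + 1) ^ j = setd (b' + 1) j 0 (n + (b' + 1) ^ (j + 1)) := by
    unfold setd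
    rw [Nat.add_div_right _ (by positivity), pow_succ, Nat.add_mul_mod_self_left]
    ring
  rw [h4, setd_zero_mod hb hj, hinv 0 (by omega), hinv b' (by omega)]
  ring

lemma Aj_le {b K : ℕ} (hb : 2 ≤ b) : ∀ (k j : ℕ), j + k = K → ∀ F : ℕ → ℝ,
    Aj b K j F ≤ 12 * ∑ s ∈ range k, (3 / 4 : ℝ) ^ s * Ij b K (j + s) F
  | 0, j, h, F => by
    rw [add_zero] at h
    rw [h, Aj_top]
    simp
  | k + 1, j, h, F => by
    have hj : j < K := by omega
    have h1 := Aj_step (K := K) hb (j := j) F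
    rw [Aj_carry hb hj] at h1
    have h2 := Aj_le (K := K) hb k (j + 1) (by omega) (Ed b j F)
    have h3 : ∑ s ∈ range k, (3 / 4 : ℝ) ^ s * Ij b K (j + 1 + s) (Ed b j F) ≤
        ∑ s ∈ range k, (3 / 4 : ℝ) ^ s * Ij b K (j + 1 + s) F :=
      sum_le_sum fun s _ => mul_le_mul_of_nonneg_left (Ij_Ed_le hb hj F) (by positivity)
    have h4 : (1 : ℝ) / b ≤ 1 / 2 := by
      have : (2 : ℝ) ≤ b := by exact_mod_cast hb
      exact one_div_le_one_div_of_le (by norm_num) this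
    have hA0 : 0 ≤ Aj b K (j + 1) (Ed b j F) := sum_nonneg fun _ _ => sq_nonneg _
    have h5 : 3 / 2 * (1 / b * Aj b K (j + 1) (Ed b j F)) ≤
        3 / 4 * Aj b K (j + 1) (Ed b j F) := by
      have := mul_le_mul_of_nonneg_right h4 hA0
      linarith
    rw [sum_range_succ']
    have h6 : ∑ s ∈ range k, (3 / 4 : ℝ) ^ (s + 1) * Ij b K (j + (s + 1)) F =
        3 / 4 * ∑ s ∈ range k, (3 / 4 : ℝ) ^ s * Ij b K (j + 1 + s) F := by
      rw [mul_sum]
      refine sum_congr rfl fun s _ => ?_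
      rw [pow_succ, show j + (s + 1) = j + 1 + s by ring]
      ring
    rw [h6, pow_zero, one_mul, add_zero]
    linarith

/-- (D) -/
theorem stAd : StAd := by
  intro b K hb F
  have h1 : ∀ j ∈ range K, ∑ n ∈ range (b ^ K), (F n - F ((n + b ^ j) % b ^ K)) ^ 2 ≤
      12 * ∑ s ∈ range K, (3 / 4 : ℝ) ^ s * (if j + s < K then Ij b K (j + s) F else 0) := by
    intro j hj
    have hj' := mem_range.1 hj
    refine (Aj_le hb (K - j) j (by omega) F).trans ?_
    refine mul_le_mul_of_nonneg_left ?_ (by norm_num)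
    refine le_trans (le_of_eq (sum_congr rfl fun s hs => ?_))
      (sum_le_sum_of_subset_of_nonneg (s := range (K - j)) (range_subset_range.2 (by omega))
        fun s _ _ => ?_)
    · have hs' := mem_range.1 hs
      rw [if_pos (by omega)]
    · refine mul_nonneg (by positivity) ?_
      split_ifs
      · exact Ij_nonneg _ _ _ _
      · exact le_rfl
  refine (sum_le_sum h1).trans ?_
  rw [← mul_sum, sum_comm]
  have h2 : ∀ s ∈ range K, ∑ j ∈ range K,
      (3 / 4 : ℝ) ^ s * (if j + s < K then Ij b K (j + s) F else 0) ≤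
      (3 / 4 : ℝ) ^ s * ∑ i ∈ range K, Ij b K i F := by
    intro s _
    rw [← mul_sum]
    refine mul_le_mul_of_nonneg_left ?_ (by positivity)
    rw [← sum_filter, ← sum_image (s := (range K).filter fun j => j + s < K)
      (g := fun j => j + s) (f := fun i => Ij b K i F) fun x _ y _ h => by simpa using h]
    refine sum_le_sum_of_subset_of_nonneg (fun i hi => ?_) fun i _ _ => Ij_nonneg _ _ _ _
    obtain ⟨j, hj, rfl⟩ := mem_image.1 hi
    exact mem_range.2 (mem_filter.1 hj).2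
  have h3 := sum_le_sum h2
  rw [← sum_mul] at h3
  have h4 : ∑ s ∈ range K, (3 / 4 : ℝ) ^ s ≤ 4 := by
    rw [geom_sum_eq (by norm_num)]
    have : (0 : ℝ) < (3 / 4 : ℝ) ^ K := by positivity
    rw [div_le_iff_of_neg (by norm_num)]
    linarith
  have h5 : 0 ≤ ∑ i ∈ range K, Ij b K i F := sum_nonneg fun i _ => Ij_nonneg _ _ _ _
  have h6 := mul_le_mul_of_nonneg_right h4 h5
  have h7 : ∑ i ∈ range K, Ij b K i F =
      ∑ i ∈ range K, ∑ n ∈ range (b ^ K), (F n - Ed b i F n) ^ 2 := rfl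
  rw [← h7]
  linarith

end Pool.Agent.Helper45.HD
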