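import Pool.Agent.Helper45.HD.Frames

set_option autoImplicit false

/-! Hidden digits: the averages over a digit. -/

namespace Pool.Agent.Helper45.HD

open Finset
open Pool.Agent.Helper57.U2 (digit)

lemma split3 (b i n : ℕ) : n = n % b ^ i + n / b ^ i % b * b ^ i + b ^ (i + 1) * (n / b ^ (i + 1)) := by
  have h1 := Nat.mod_add_div n (b ^ (i + 1))
  rw [Nat.mod_pow_succ] at h1
  rw [Nat.mul_comm (n / b ^ i % b) (b ^ i)]
  exact h1.symm

lemma setd_mod {b i u : ℕ} (n : ℕ) : setd b i u n % b ^ i = n % b ^ i := by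
  unfold setd
  rw [pow_succ, Nat.mul_assoc, Nat.add_mul_mod_self_left, Nat.mul_comm u, Nat.add_mul_mod_self_left,
    Nat.mod_mod]

lemma setd_div {b i u : ℕ} (hb : 2 ≤ b) (hu : u < b) (n : ℕ) :
    setd b i u n / b ^ (i + 1) = n / b ^ (i + 1) := by
  have hpos : 0 < b ^ i := by positivity
  have hpos' : 0 < b ^ (i + 1) := by positivity
  have hlo : n % b ^ i < b ^ i := Nat.mod_lt _ hpos
  unfold setd
  rw [Nat.add_mul_div_left _ _ hpos', Nat.div_eq_of_lt, Nat.zero_add]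
  have h3 : u + 1 ≤ b := hu
  have h4 : b ^ i * (u + 1) ≤ b ^ i * b := Nat.mul_le_mul_left _ h3
  rw [pow_succ]
  nlinarith

lemma digit_setd_self {b i u : ℕ} (hb : 2 ≤ b) (hu : u < b) (n : ℕ) :
    digit b i (setd b i u n) = u := by
  have hpos : 0 < b ^ i := by positivity
  unfold digit setd
  have h1 : n % b ^ i + u * b ^ i + b ^ (i + 1) * (n / b ^ (i + 1)) =
      n % b ^ i + b ^ i * (u + b * (n / b ^ (i + 1))) := by
    rw [pow_succ]
    ring
  rw [h1, Nat.add_mul_div_left _ _ hpos, Nat.div_eq_of_lt (Nat.mod_lt _ hpos), Nat.zero_add,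
    Nat.add_mul_mod_self_left, Nat.mod_eq_of_lt hu]

lemma digit_of_mod_div {b i q m n : ℕ} (h1 : m % b ^ i = n % b ^ i)
    (h2 : m / b ^ (i + 1) = n / b ^ (i + 1)) (h : q ≠ i) : digit b q m = digit b q n := by
  unfold digit
  rcases lt_or_gt_of_ne h with h | h
  · have key : ∀ m : ℕ, m / b ^ q % b = m % b ^ i / b ^ q % b := by
      intro m
      obtain ⟨t, rfl⟩ : ∃ t, i = q + 1 + t := ⟨i - (q + 1), by omega⟩
      have h1 : m % b ^ (q + 1 + t) / b ^ q = m / b ^ q % b ^ (1 + t) := by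
        rw [show b ^ (q + 1 + t) = b ^ q * b ^ (1 + t) by rw [← pow_add]; congr 1; omega,
          Nat.mod_mul_right_div_self]
      rw [h1, pow_add, pow_one, Nat.mod_mul_right_mod]
    rw [key, h1, ← key]
  · obtain ⟨t, rfl⟩ : ∃ t, q = i + 1 + t := ⟨q - (i + 1), by omega⟩
    rw [pow_add, ← Nat.div_div_eq_div_mul, ← Nat.div_div_eq_div_mul, h2]

lemma digit_setd_ne {b i q u : ℕ} (hb : 2 ≤ b) (hu : u < b) (n : ℕ) (h : q ≠ i) :
    digit b q (setd b i u n) = digit b q n :=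
  digit_of_mod_div (setd_mod n) (setd_div hb hu n) h

lemma digit_lt {b : ℕ} (hb : 2 ≤ b) (i n : ℕ) : digit b i n < b := Nat.mod_lt _ (by omega)

lemma setd_setd {b i u v : ℕ} (hb : 2 ≤ b) (hu : u < b) (n : ℕ) :
    setd b i v (setd b i u n) = setd b i v n := by
  have h1 := setd_mod (b := b) (i := i) (u := u) n
  have h2 := setd_div (i := i) hb hu n
  have h3 : ∀ m, setd b i v m = m % b ^ i + v * b ^ i + b ^ (i + 1) * (m / b ^ (i + 1)) :=
    fun m => rfl
  rw [h3 (setd b i u n), h3 n, h1, h2]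

lemma setd_digit (b i n : ℕ) : setd b i (digit b i n) n = n := (split3 b i n).symm

lemma digits_ext {b : ℕ} (hb : 2 ≤ b) : ∀ (K : ℕ) (m n : ℕ), m < b ^ K → n < b ^ K →
    (∀ q < K, digit b q m = digit b q n) → m = n
  | 0, m, n, hm, hn, _ => by
    rw [pow_zero] at hm hn
    omega
  | K + 1, m, n, hm, hn, h => by
    have hm' : m / b < b ^ K := by
      rw [Nat.div_lt_iff_lt_mul (by omega)]
      rwa [pow_succ] at hm
    have hn' : n / b < b ^ K := by
      rw [Nat.div_lt_iff_lt_mul (by omega)]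
      rwa [pow_succ] at hn
    have h1 := digits_ext hb K (m / b) (n / b) hm' hn' (fun q hq => by
      have := h (q + 1) (by omega)
      unfold digit at this ⊢
      rwa [pow_succ', ← Nat.div_div_eq_div_mul, ← Nat.div_div_eq_div_mul] at this)
    have h2 := h 0 (by omega)
    unfold digit at h2
    rw [pow_zero, Nat.div_one, Nat.div_one] at h2
    have h3 := Nat.mod_add_div m b
    have h4 := Nat.mod_add_div n b
    rw [h1, h2] at h3
    omega

lemma setd_lt {b i u n K : ℕ} (hb : 2 ≤ b) (hu : u < b) (hi : i < K) (hn : n < b ^ K) :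
    setd b i u n < b ^ K := by
  obtain ⟨t, rfl⟩ : ∃ t, K = i + 1 + t := ⟨K - (i + 1), by omega⟩
  have h1 := setd_div (i := i) hb hu n
  rw [pow_add, mul_comm, ← Nat.div_lt_iff_lt_mul (by positivity)] at hn ⊢
  rw [h1]
  exact hn

lemma exists_pow_gt {b : ℕ} (hb : 2 ≤ b) (m : ℕ) : ∃ K, ∀ L, K ≤ L → m < b ^ L :=
  ⟨m, fun L hL => (Nat.lt_pow_self (by omega)).trans_le (Nat.pow_le_pow_right (by omega) hL)⟩

lemma setd_comm {b i j u v : ℕ} (hb : 2 ≤ b) (hu : u < b) (hv : v < b) (h : i ≠ j) (n : ℕ) :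
    setd b i u (setd b j v n) = setd b j v (setd b i u n) := by
  obtain ⟨K₁, h1⟩ := exists_pow_gt hb (setd b i u (setd b j v n))
  obtain ⟨K₂, h2⟩ := exists_pow_gt hb (setd b j v (setd b i u n))
  refine digits_ext hb (max K₁ K₂) _ _ (h1 _ (le_max_left _ _)) (h2 _ (le_max_right _ _))
    fun q _ => ?_
  by_cases hqi : q = i
  · subst hqi
    rw [digit_setd_self hb hu, digit_setd_ne hb hv _ h, digit_setd_self hb hu]
  · rw [digit_setd_ne hb hu _ hqi]
    by_cases hqj : q = j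
    · subst hqj
      rw [digit_setd_self hb hv, digit_setd_self hb hv]
    · rw [digit_setd_ne hb hv _ hqj, digit_setd_ne hb hv _ hqj, digit_setd_ne hb hu _ hqi]

/-- `E_i g` does not depend on the digit at `i` -/
lemma Ed_setd {b i u : ℕ} (hb : 2 ≤ b) (hu : u < b) (g : ℕ → ℝ) (n : ℕ) :
    Ed b i g (setd b i u n) = Ed b i g n := by
  unfold Ed
  congr 1
  exact sum_congr rfl fun v _ => by rw [setd_setd hb hu]

/-- a function which does not depend on the digit at `i` comes out -/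
lemma Ed_mul_left {b i : ℕ} (g h : ℕ → ℝ) (n : ℕ)
    (hg : ∀ u < b, g (setd b i u n) = g n) :
    Ed b i (fun m => g m * h m) n = g n * Ed b i h n := by
  unfold Ed
  rw [mul_div_assoc', Finset.mul_sum]
  congr 1
  exact sum_congr rfl fun u hu => congrArg (· * h (setd b i u n)) (hg u (mem_range.1 hu))

lemma Ed_of_inv {b i : ℕ} (hb : 2 ≤ b) (g : ℕ → ℝ) (n : ℕ)
    (hg : ∀ u < b, g (setd b i u n) = g n) : Ed b i g n = g n := by
  have hb0 : (b : ℝ) ≠ 0 := by
    have : b ≠ 0 := by omega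
    exact_mod_cast this
  unfold Ed
  rw [sum_congr rfl fun u hu => hg u (mem_range.1 hu), Finset.sum_const, card_range, nsmul_eq_mul,
    mul_div_assoc, mul_div_cancel₀]
  exact hb0

lemma Ed_idem {b i : ℕ} (hb : 2 ≤ b) (g : ℕ → ℝ) (n : ℕ) : Ed b i (Ed b i g) n = Ed b i g n :=
  Ed_of_inv hb _ n fun _ hu => Ed_setd hb hu g n

lemma Ed_add (b i : ℕ) (g h : ℕ → ℝ) (n : ℕ) :
    Ed b i (fun m => g m + h m) n = Ed b i g n + Ed b i h n := by
  unfold Ed
  rw [Finset.sum_add_distrib, add_div]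

lemma Ed_sub (b i : ℕ) (g h : ℕ → ℝ) (n : ℕ) :
    Ed b i (fun m => g m - h m) n = Ed b i g n - Ed b i h n := by
  unfold Ed
  rw [Finset.sum_sub_distrib, sub_div]

lemma Ed_smul (b i : ℕ) (c : ℝ) (g : ℕ → ℝ) (n : ℕ) :
    Ed b i (fun m => c * g m) n = c * Ed b i g n := by
  unfold Ed
  rw [← Finset.mul_sum, mul_div_assoc]

lemma Ed_comm {b i j : ℕ} (hb : 2 ≤ b) (g : ℕ → ℝ) (n : ℕ) :
    Ed b i (Ed b j g) n = Ed b j (Ed b i g) n := by
  by_cases h : i = j
  · rw [h]
  unfold Ed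
  rw [← Finset.sum_div, ← Finset.sum_div, Finset.sum_comm]
  congr 2
  refine sum_congr rfl fun v hv => sum_congr rfl fun u hu => ?_
  rw [setd_comm hb (mem_range.1 hv) (mem_range.1 hu) (Ne.symm h)]

/-- the average preserves the sum -/
lemma sum_Ed {b i K : ℕ} (hb : 2 ≤ b) (hi : i < K) (g : ℕ → ℝ) :
    ∑ n ∈ range (b ^ K), Ed b i g n = ∑ n ∈ range (b ^ K), g n := by
  have hb0 : (b : ℝ) ≠ 0 := by
    have : b ≠ 0 := by omega
    exact_mod_cast this
  unfold Ed
  rw [← Finset.sum_div, div_eq_iff hb0]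
  have h1 : ∑ n ∈ range (b ^ K), ∑ u ∈ range b, g (setd b i u n) =
      ∑ n ∈ range (b ^ K), ∑ u ∈ range b, g n := by
    rw [← Finset.sum_product', ← Finset.sum_product']
    refine Finset.sum_nbij' (fun p => (setd b i p.2 p.1, digit b i p.1))
      (fun p => (setd b i p.2 p.1, digit b i p.1)) ?_ ?_ ?_ ?_ ?_
    · intro p hp
      rw [mem_product, mem_range, mem_range] at hp ⊢
      exact ⟨setd_lt hb hp.2 hi hp.1, digit_lt hb i p.1⟩
    · intro p hp
      rw [mem_product, mem_range, mem_range] at hp ⊢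
      exact ⟨setd_lt hb hp.2 hi hp.1, digit_lt hb i p.1⟩
    · intro p hp
      rw [mem_product, mem_range, mem_range] at hp
      refine Prod.ext ?_ ?_
      · show setd b i (digit b i p.1) (setd b i p.2 p.1) = p.1
        rw [setd_setd hb hp.2, setd_digit]
      · exact digit_setd_self hb hp.2 p.1
    · intro p hp
      rw [mem_product, mem_range, mem_range] at hp
      refine Prod.ext ?_ ?_
      · show setd b i (digit b i p.1) (setd b i p.2 p.1) = p.1
        rw [setd_setd hb hp.2, setd_digit]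
      · exact digit_setd_self hb hp.2 p.1
    · intro p _
      rfl
  rw [h1, sum_congr rfl fun n _ => by rw [Finset.sum_const, card_range, nsmul_eq_mul],
    ← Finset.mul_sum, mul_comm]

lemma Ed_adj {b i K : ℕ} (hb : 2 ≤ b) (hi : i < K) (g h : ℕ → ℝ) :
    ∑ n ∈ range (b ^ K), g n * Ed b i h n = ∑ n ∈ range (b ^ K), Ed b i g n * Ed b i h n := by
  rw [← sum_Ed hb hi]
  refine sum_congr rfl fun n _ => ?_
  have h1 : Ed b i (fun m => g m * Ed b i h m) n = Ed b i (fun m => Ed b i h m * g m) n := by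
    unfold Ed
    congr 1
    exact sum_congr rfl fun u _ => mul_comm _ _
  rw [h1, Ed_mul_left (Ed b i h) g n fun u hu => Ed_setd hb hu h n, mul_comm]

lemma Ed_symm {b i K : ℕ} (hb : 2 ≤ b) (hi : i < K) (g h : ℕ → ℝ) :
    ∑ n ∈ range (b ^ K), g n * Ed b i h n = ∑ n ∈ range (b ^ K), Ed b i g n * h n := by
  rw [Ed_adj hb hi]
  have h1 := Ed_adj hb hi h g
  rw [sum_congr rfl fun n _ => mul_comm (Ed b i g n) (h n), h1]
  exact sum_congr rfl fun n _ => mul_comm _ _

lemma Ed_sq_le {b : ℕ} (hb : 2 ≤ b) (i : ℕ) (g : ℕ → ℝ) (n : ℕ) :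
    (Ed b i g n) ^ 2 ≤ Ed b i (fun m => g m ^ 2) n := by
  have hb0 : (0 : ℝ) < b := by
    have : 0 < b := by omega
    exact_mod_cast this
  unfold Ed
  have h1 := sq_sum_le_card_mul_sum_sq (s := range b) (f := fun u => g (setd b i u n))
  rw [card_range] at h1
  rw [div_pow, div_le_div_iff₀ (by positivity) hb0]
  nlinarith

lemma norm_Ed_le {b i K : ℕ} (hb : 2 ≤ b) (hi : i < K) (g : ℕ → ℝ) :
    ∑ n ∈ range (b ^ K), Ed b i g n ^ 2 ≤ ∑ n ∈ range (b ^ K), g n ^ 2 := by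
  rw [← sum_Ed hb hi (fun m => g m ^ 2)]
  exact sum_le_sum fun n _ => Ed_sq_le hb i g n

lemma Ed_pyth {b i K : ℕ} (hb : 2 ≤ b) (hi : i < K) (g : ℕ → ℝ) :
    ∑ n ∈ range (b ^ K), (g n - Ed b i g n) ^ 2 = ∑ n ∈ range (b ^ K), g n ^ 2 -
      ∑ n ∈ range (b ^ K), Ed b i g n ^ 2 := by
  have h1 := Ed_adj hb hi g g
  have h2 : ∑ n ∈ range (b ^ K), (g n - Ed b i g n) ^ 2 = ∑ n ∈ range (b ^ K), g n ^ 2 -
      2 * ∑ n ∈ range (b ^ K), g n * Ed b i g n + ∑ n ∈ range (b ^ K), Ed b i g n ^ 2 := by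
    rw [Finset.mul_sum, ← Finset.sum_sub_distrib, ← Finset.sum_add_distrib]
    exact sum_congr rfl fun n _ => by ring
  rw [h2, h1]
  have h3 : ∑ n ∈ range (b ^ K), Ed b i g n * Ed b i g n = ∑ n ∈ range (b ^ K), Ed b i g n ^ 2 :=
    sum_congr rfl fun n _ => by ring
  rw [h3]
  ring

lemma sum_mod_shift (x c : ℕ) (hx : 0 < x) (g : ℕ → ℝ) :
    ∑ n ∈ range x, g ((n + c) % x) = ∑ n ∈ range x, g n := by
  refine Finset.sum_nbij' (fun n => (n + c) % x) (fun n => (n + (x - c % x)) % x) ?_ ?_ ?_ ?_ ?_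
  · intro n _
    exact mem_range.2 (Nat.mod_lt _ hx)
  · intro n _
    exact mem_range.2 (Nat.mod_lt _ hx)
  · intro n hn
    have hn' := mem_range.1 hn
    have hc := Nat.mod_lt c hx
    show ((n + c) % x + (x - c % x)) % x = n
    have h1 : ((n + c) % x + (x - c % x)) % x = (n + c + (x - c % x)) % x := by
      rw [Nat.add_mod, Nat.mod_mod, ← Nat.add_mod]
    have h2 : n + c + (x - c % x) = n + x * (1 + c / x) := by
      have h3 := Nat.mod_add_div c x
      rw [Nat.mul_add, Nat.mul_one]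
      omega
    rw [h1, h2, Nat.add_mul_mod_self_left, Nat.mod_eq_of_lt hn']
  · intro n hn
    have hn' := mem_range.1 hn
    have hc := Nat.mod_lt c hx
    show ((n + (x - c % x)) % x + c) % x = n
    have h1 : ((n + (x - c % x)) % x + c) % x = (n + (x - c % x) + c) % x := by
      rw [Nat.add_mod, Nat.mod_mod, ← Nat.add_mod]
    have h2 : n + (x - c % x) + c = n + x * (1 + c / x) := by
      have h3 := Nat.mod_add_div c x
      rw [Nat.mul_add, Nat.mul_one]
      omega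
    rw [h1, h2, Nat.add_mul_mod_self_left, Nat.mod_eq_of_lt hn']
  · intro n _
    rfl

end Pool.Agent.Helper45.HD
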