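import Pool.Agent.Helper7.SC.Frames
import Pool.Agent.Helper57.LJ.Defs
import Pool.Agent.Helper57.U2.Defs

set_option autoImplicit false

/-!
Hidden digits: definitions and the literal statements of the pieces, as propositions.
-/

namespace Pool.Agent.Helper45.HD

open Finset
open Pool.Agent.Helper7.SC (law ka)
open Pool.Agent.Helper57.LJ (dig)
open Pool.Agent.Helper57.U2 (rep IsChoice upTo digit)

/-- The rule `J` sees the digits of `n` at the positions outside `R` and guesses with `J R i n` the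
digit of `f(n)` at position `i`. When each position `q < K` is in `R` with probability `t`,
independently, it is right for at least the proportion `1 / b + ε` of the pairs `(n, i)`, `n` in
`D` below `b ^ K`, `i < K`, on average over `R`. -/
def HiddenGuesses (b K : ℕ) (t ε : ℝ) (D : Set ℕ) (f : ℕ → ℕ) (J : Finset ℕ → ℕ → ℕ → ℕ) : Prop :=
  (∀ R i m n, (∀ q < K, q ∉ R → digit b q m = digit b q n) → J R i m = J R i n) ∧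
  (1 / b + ε) * (K * #(upTo D (b ^ K))) ≤ ∑ R ∈ (range K).powerset, t ^ #R * (1 - t) ^ (K - #R) *
    ∑ n ∈ upTo D (b ^ K), (#{i ∈ range K | J R i n = digit b i (f n)} : ℝ)

/-- the digit at `i` is replaced by `u` -/
def setd (b i u n : ℕ) : ℕ := n % b ^ i + u * b ^ i + b ^ (i + 1) * (n / b ^ (i + 1))

/-- the average over the digit at `i` -/
noncomputable def Ed (b i : ℕ) (g : ℕ → ℝ) (n : ℕ) : ℝ := (∑ u ∈ range b, g (setd b i u n)) / b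

/-- the noise operator, the product of the `1 - t + t E_i` for `i < k` -/
noncomputable def Tn (b : ℕ) (t : ℝ) : ℕ → (ℕ → ℝ) → ℕ → ℝ
  | 0, g => g
  | k + 1, g => fun n => (1 - t) * Tn b t k g n + t * Ed b k (Tn b t k g) n

/-- the target -/
noncomputable def tg (b : ℕ) (D : Finset ℕ) (f : ℕ → ℕ) (i a n : ℕ) : ℝ :=
  if n ∈ D then (if digit b i (f n) = a then 1 else 0) - 1 / b else 0

/-- (C) total influence of the noise operator -/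
def StIn : Prop := ∀ (b K : ℕ) (t : ℝ), 2 ≤ b → 0 < t → t ≤ 1 → ∀ g : ℕ → ℝ,
  ∑ i ∈ range K, ∑ n ∈ range (b ^ K), (Tn b t K g n - Ed b i (Tn b t K g) n) ^ 2 ≤
    (∑ n ∈ range (b ^ K), g n ^ 2) / t

/-- (D) additive against digit influence, no logarithm -/
def StAd : Prop := ∀ (b K : ℕ), 2 ≤ b → ∀ F : ℕ → ℝ,
  ∑ j ∈ range K, ∑ n ∈ range (b ^ K), (F n - F ((n + b ^ j) % b ^ K)) ^ 2 ≤
    48 * ∑ i ∈ range K, ∑ n ∈ range (b ^ K), (F n - Ed b i F n) ^ 2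

/-- (A) the target is correlated with its noisy version -/
def StEr : Prop := ∀ (b K : ℕ) (t ε : ℝ), 2 ≤ b → 0 < t → t ≤ 1 → 0 < ε → ∀ (D : Set ℕ)
  (f : ℕ → ℕ) (J : Finset ℕ → ℕ → ℕ → ℕ), HiddenGuesses b K t ε D f J →
  ε ^ 2 * K * (#(upTo D (b ^ K)) : ℝ) ^ 2 ≤ (b : ℝ) ^ K * ∑ i ∈ range K, ∑ a ∈ range b,
    ∑ n ∈ range (b ^ K), tg b (upTo D (b ^ K)) f i a n * Tn b t K (tg b (upTo D (b ^ K)) f i a) n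

/-- (B) the randomised guess -/
def StPi : Prop := ∀ (b K : ℕ) (t ε δ : ℝ), 2 ≤ b → 0 < t → t ≤ 1 → 0 < ε → 0 < δ →
  ∀ (D : Set ℕ) (f : ℕ → ℕ) (J : Finset ℕ → ℕ → ℕ → ℕ), HiddenGuesses b K t ε D f J →
  δ * (b : ℝ) ^ K ≤ #(upTo D (b ^ K)) →
  ∃ φ : ℕ → ℕ → ℕ → ℝ, (∀ i n a, 0 ≤ φ i n a) ∧ (∀ i n, ∑ a ∈ range b, φ i n a = 1) ∧
    (1 / b + ε ^ 2 * δ ^ 2 / (2 * b)) * K * #(upTo D (b ^ K)) ≤
      ∑ n ∈ upTo D (b ^ K), ∑ i ∈ range K, φ i n (digit b i (f n)) ∧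
    ∑ i ∈ range K, ∑ a ∈ range b, ∑ j ∈ range K, ∑ n ∈ range (b ^ K),
      (φ i n a - Ed b j (fun n => φ i n a) n) ^ 2 ≤ K * (b : ℝ) ^ K / (16 * t)

/-- (E) the energy of the noise -/
def StEn : Prop := ∀ (b q r m K : ℕ) (p : ℝ), 2 ≤ b → r + m * q ≤ K → 0 ≤ p → p ≤ 1 →
  ∀ [Fintype (ZMod (b ^ K))] (G : ZMod (b ^ K) → ℝ),
  ∑ n, ∑ t, law b q r m K p t * (G n - G (n + t)) ^ 2 ≤
    p * ((b : ℝ) ^ q) ^ 2 * ∑ j ∈ range K, ∑ n, (G n - G (n + (b : ZMod (b ^ K)) ^ j)) ^ 2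

/-- (F1) the bridge for randomised guesses -/
def StC2 : Prop := ∀ (b : ℕ), 2 ≤ b → ∀ (ε δ : ℝ), 0 < ε → 0 < δ →
  ∃ (H : ℕ) (ε₀ : ℝ), 1 ≤ H ∧ 0 < ε₀ ∧ ∀ q : ℕ, 1 ≤ q → ∃ c₁ : ℝ, 0 < c₁ ∧ c₁ ≤ 1 / 2 ∧
  ∀ K : ℕ, 4 * q ≤ ε * K → ∀ s : ℝ, 1 ≤ s →
  ∀ (D : Finset ℕ) (f : ℕ → ℕ) (φ : ℕ → ℕ → ℕ → ℝ), D ⊆ range (b ^ K) →
  δ * (b : ℝ) ^ K ≤ #D → (∀ i n a, 0 ≤ φ i n a) → (∀ i n, ∑ a ∈ range b, φ i n a = 1) →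
  ∑ i ∈ range K, ∑ a ∈ range b, ∑ j ∈ range K, ∑ n ∈ range (b ^ K),
    (φ i n a - φ i ((n + b ^ j) % b ^ K) a) ^ 2 ≤ s * K * (b : ℝ) ^ K →
  (1 / b + ε) * K * #D ≤ ∑ n ∈ D, ∑ i ∈ range K, φ i n (dig b i (f n)) →
  ∃ r < q, ε₀ * (((K - r) / q : ℕ) * (b : ℝ) ^ K) ≤
    ∑ n ∈ D, ∑ n' ∈ D, law b q r ((K - r) / q) K (c₁ / s) ((n' : ZMod (b ^ K)) - n) *
      ∑ B : Fin ((K - r) / q), ka H (((f n : ℝ) - f n') / (b : ℝ) ^ (r + (B + 1) * q))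

/-- (F2) the theorem for randomised guesses -/
def StR : Prop := ∀ (b : ℕ), 2 ≤ b → ∀ (ε δ : ℝ), 0 < ε → 0 < δ → ∃ c : ℝ, 0 < c ∧
  ∀ (A D : Set ℕ) (f : ℕ → ℕ), IsChoice A D f → ∀ K : ℕ,
  δ * (b : ℝ) ^ K ≤ #(upTo D (b ^ K)) → ∀ (φ : ℕ → ℕ → ℕ → ℝ) (s : ℝ), 1 ≤ s →
  (∀ i n a, 0 ≤ φ i n a) → (∀ i n, ∑ a ∈ range b, φ i n a = 1) →
  ∑ i ∈ range K, ∑ a ∈ range b, ∑ j ∈ range K, ∑ n ∈ range (b ^ K),
    (φ i n a - φ i ((n + b ^ j) % b ^ K) a) ^ 2 ≤ s * K * (b : ℝ) ^ K →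
  (1 / b + ε) * K * #(upTo D (b ^ K)) ≤
    ∑ n ∈ upTo D (b ^ K), ∑ i ∈ range K, φ i n (digit b i (f n)) →
  c * (b : ℝ) ^ K * Real.exp (c * K / s) ≤ ∑ n ∈ range (2 * b ^ K), (rep A n : ℝ) ^ 2

/-- (H) hidden digits -/
def StHD : Prop := ∀ (b : ℕ), 2 ≤ b → ∀ (ε δ : ℝ), 0 < ε → 0 < δ → ∃ c : ℝ, 0 < c ∧
  ∀ (A D : Set ℕ) (f : ℕ → ℕ), IsChoice A D f → ∀ K : ℕ,
  δ * (b : ℝ) ^ K ≤ #(upTo D (b ^ K)) → ∀ t : ℝ, 0 < t → t ≤ 1 →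
  ∀ J : Finset ℕ → ℕ → ℕ → ℕ, HiddenGuesses b K t ε D f J →
  c * (b : ℝ) ^ K * Real.exp (c * t * K) ≤ ∑ n ∈ range (2 * b ^ K), (rep A n : ℝ) ^ 2

end Pool.Agent.Helper45.HD
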