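import Pool.Agent.Helper45.HD.Ad

set_option autoImplicit false

/-! Hidden digits: the last step. -/

namespace Pool.Agent.Helper45.HD

open Finset
open Pool.Agent.Helper57.U2 (rep IsChoice upTo digit)

/-- (H) -/
theorem stHD_of (hPi : StPi) (hR : StR) : StHD := by
  intro b hb ε δ hε hδ
  have hb0 : (0 : ℝ) < b := by
    have : 0 < b := by omega
    exact_mod_cast this
  obtain ⟨c, hc, h⟩ := hR b hb (ε ^ 2 * δ ^ 2 / (2 * b)) δ (by positivity) hδ
  refine ⟨c / 3, by positivity, fun A D f hf K hD t ht ht1 J hJ => ?_⟩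
  obtain ⟨φ, h1, h2, h3, h4⟩ := hPi b K t ε δ hb ht ht1 hε hδ D f J hJ hD
  have hs : (1 : ℝ) ≤ 3 / t := by
    rw [le_div_iff₀ ht]
    linarith
  have h5 : ∑ i ∈ range K, ∑ a ∈ range b, ∑ j ∈ range K, ∑ n ∈ range (b ^ K),
      (φ i n a - φ i ((n + b ^ j) % b ^ K) a) ^ 2 ≤ 3 / t * K * (b : ℝ) ^ K := by
    have h6 : ∀ i ∈ range K, ∀ a ∈ range b, ∑ j ∈ range K, ∑ n ∈ range (b ^ K),
        (φ i n a - φ i ((n + b ^ j) % b ^ K) a) ^ 2 ≤
        48 * ∑ j ∈ range K, ∑ n ∈ range (b ^ K),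
          (φ i n a - Ed b j (fun n => φ i n a) n) ^ 2 :=
      fun i _ a _ => stAd b K hb fun n => φ i n a
    calc _ ≤ ∑ i ∈ range K, ∑ a ∈ range b, 48 * ∑ j ∈ range K, ∑ n ∈ range (b ^ K),
          (φ i n a - Ed b j (fun n => φ i n a) n) ^ 2 :=
          sum_le_sum fun i hi => sum_le_sum fun a ha => h6 i hi a ha
      _ = 48 * ∑ i ∈ range K, ∑ a ∈ range b, ∑ j ∈ range K, ∑ n ∈ range (b ^ K),
          (φ i n a - Ed b j (fun n => φ i n a) n) ^ 2 := by
          rw [mul_sum]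
          exact sum_congr rfl fun i _ => by rw [mul_sum]
      _ ≤ 48 * (K * (b : ℝ) ^ K / (16 * t)) := by linarith
      _ = 3 / t * K * (b : ℝ) ^ K := by
          have ht' : t ≠ 0 := ht.ne'
          field_simp
          ring
  have h7 := h A D f hf K hD φ (3 / t) hs h1 h2 h5 h3
  refine le_trans ?_ h7
  have hx : 0 < (b : ℝ) ^ K := by positivity
  have h8 : c / 3 * t * K = c * K / (3 / t) := by
    field_simp
  rw [h8]
  refine mul_le_mul_of_nonneg_right ?_ (Real.exp_pos _).le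
  exact mul_le_mul_of_nonneg_right (by linarith) hx.le

end Pool.Agent.Helper45.HD
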