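import Pool.Agent.Helper45.HD.Frames

set_option autoImplicit false

/-! Hidden digits: the form without choice functions. -/

namespace Pool.Agent.Helper45.HD

open Finset
open Pool.Agent.Helper57.U2 (rep IsChoice upTo digit)

/-- `J R i n` depends only on the digits of `n` at the positions below `K` outside `R`. -/
def IsRule (b K : ℕ) (J : Finset ℕ → ℕ → ℕ → ℕ) : Prop :=
  ∀ R i m n, (∀ q < K, q ∉ R → digit b q m = digit b q n) → J R i m = J R i n

/-- The expected number of digits `i < K` of `a` which the rule `J` guesses from the digits of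
`n` outside a random set `R`: each position below `K` is in `R` with probability `t`,
independently. -/
noncomputable def hits (b K : ℕ) (t : ℝ) (J : Finset ℕ → ℕ → ℕ → ℕ) (n a : ℕ) : ℝ :=
  ∑ R ∈ (range K).powerset, t ^ #R * (1 - t) ^ (K - #R) * #{i ∈ range K | J R i n = digit b i a}

open Classical in
/-- The `n < b ^ K` with some representation `n = a + a'`, `a` and `a'` in `A`, such that `J`
guesses on average at least the proportion `1 / b + ε` of the digits of `a`. -/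
noncomputable def guessedSet (b K : ℕ) (t ε : ℝ) (A : Set ℕ) (J : Finset ℕ → ℕ → ℕ → ℕ) :
    Finset ℕ :=
  {n ∈ range (b ^ K) | ∃ a ∈ A, ∃ a' ∈ A, a + a' = n ∧ (1 / b + ε) * K ≤ hits b K t J n a}

lemma mem_upTo {D : Set ℕ} {x n : ℕ} : n ∈ upTo D x ↔ n < x ∧ n ∈ D := by
  unfold upTo
  simp only [mem_filter, mem_range]

/-- (i) -/
theorem hdset (hHD : StHD) (b : ℕ) (hb : 2 ≤ b) (ε δ : ℝ) (hε : 0 < ε) (hδ : 0 < δ) :
    ∃ c : ℝ, 0 < c ∧ ∀ (A : Set ℕ) (K : ℕ) (t : ℝ), 0 < t → t ≤ 1 →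
      ∀ J : Finset ℕ → ℕ → ℕ → ℕ, IsRule b K J → δ * (b : ℝ) ^ K ≤ #(guessedSet b K t ε A J) →
      c * (b : ℝ) ^ K * Real.exp (c * t * K) ≤ ∑ n ∈ range (2 * b ^ K), (rep A n : ℝ) ^ 2 := by
  classical
  obtain ⟨c, hc, h⟩ := hHD b hb ε δ hε hδ
  refine ⟨c, hc, fun A K t ht ht1 J hJ hS => ?_⟩
  have hex : ∀ n, ∃ a, n ∈ guessedSet b K t ε A J →
      a ≤ n ∧ a ∈ A ∧ n - a ∈ A ∧ (1 / b + ε) * K ≤ hits b K t J n a := by
    intro n
    by_cases hn : n ∈ guessedSet b K t ε A J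
    · obtain ⟨_, a, ha, a', ha', haa, h1⟩ := mem_filter.1 hn
      refine ⟨a, fun _ => ⟨by omega, ha, ?_, h1⟩⟩
      have : n - a = a' := by omega
      rwa [this]
    · exact ⟨0, fun h => absurd h hn⟩
  choose f hf using hex
  have hup : upTo (guessedSet b K t ε A J : Set ℕ) (b ^ K) = guessedSet b K t ε A J := by
    ext n
    rw [mem_upTo]
    exact ⟨fun h => mem_coe.1 h.2, fun h => ⟨mem_range.1 (mem_filter.1 h).1, mem_coe.2 h⟩⟩
  refine h A (guessedSet b K t ε A J : Set ℕ) f (fun n hn => ?_) K (by rw [hup]; exact hS) t ht ht1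
    J ⟨hJ, ?_⟩
  · obtain ⟨h1, h2, h3, _⟩ := hf n (mem_coe.1 hn)
    exact ⟨h1, h2, h3⟩
  · rw [hup]
    have h1 : ∀ n ∈ guessedSet b K t ε A J, (1 / b + ε) * K ≤ hits b K t J n (f n) :=
      fun n hn => (hf n hn).2.2.2
    have h2 := Finset.sum_le_sum h1
    rw [Finset.sum_const, nsmul_eq_mul] at h2
    have h3 : ∑ n ∈ guessedSet b K t ε A J, hits b K t J n (f n) =
        ∑ R ∈ (range K).powerset, t ^ #R * (1 - t) ^ (K - #R) *
          ∑ n ∈ guessedSet b K t ε A J, (#{i ∈ range K | J R i n = digit b i (f n)} : ℝ) := by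
      unfold hits
      rw [Finset.sum_comm]
      exact sum_congr rfl fun R _ => by rw [Finset.mul_sum]
    rw [← h3]
    refine le_trans (le_of_eq ?_) h2
    ring

/-- (ii) -/
theorem hdset_bounded (hHD : StHD) (b : ℕ) (hb : 2 ≤ b) (C : ℕ) (ε δ : ℝ) (hε : 0 < ε)
    (hδ : 0 < δ) : ∃ T : ℝ, 0 < T ∧ ∀ A : Set ℕ, (∀ n, rep A n ≤ C) → ∀ (K : ℕ) (t : ℝ),
      T ≤ t * K → t ≤ 1 → ∀ J : Finset ℕ → ℕ → ℕ → ℕ, IsRule b K J →
      (#(guessedSet b K t ε A J) : ℝ) < δ * (b : ℝ) ^ K := by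
  obtain ⟨c, hc, h⟩ := hdset hHD b hb ε δ hε hδ
  refine ⟨2 * ((C : ℝ) ^ 2 + 1) / c ^ 2, by positivity, fun A hA K t hT ht1 J hJ => ?_⟩
  have hx : 0 < (b : ℝ) ^ K := by positivity
  have hT0 : 0 < 2 * ((C : ℝ) ^ 2 + 1) / c ^ 2 := by positivity
  have ht0 : 0 < t := by
    by_contra hneg
    have : t * K ≤ 0 := mul_nonpos_of_nonpos_of_nonneg (not_lt.1 hneg) (Nat.cast_nonneg _)
    linarith
  by_contra hlt
  have h1 := h A K t ht0 ht1 J hJ (not_lt.1 hlt)
  have h2 : ∑ n ∈ range (2 * b ^ K), (rep A n : ℝ) ^ 2 ≤ 2 * (b : ℝ) ^ K * (C : ℝ) ^ 2 := by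
    calc _ ≤ ∑ n ∈ range (2 * b ^ K), (C : ℝ) ^ 2 := by
          refine sum_le_sum fun n _ => ?_
          exact pow_le_pow_left₀ (Nat.cast_nonneg _) (by exact_mod_cast hA n) 2
      _ = _ := by
          rw [Finset.sum_const, card_range, nsmul_eq_mul]
          push_cast
          ring
  have h3 : c * t * K + 1 ≤ Real.exp (c * t * K) := Real.add_one_le_exp _
  have h4 : 2 * ((C : ℝ) ^ 2 + 1) ≤ c * (c * t * K) := by
    rw [div_le_iff₀ (by positivity)] at hT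
    calc 2 * ((C : ℝ) ^ 2 + 1) ≤ t * K * c ^ 2 := hT
      _ = c * (c * t * K) := by ring
  have h5 : c * (b : ℝ) ^ K * (c * t * K + 1) ≤ 2 * (b : ℝ) ^ K * (C : ℝ) ^ 2 :=
    (mul_le_mul_of_nonneg_left h3 (by positivity)).trans (h1.trans h2)
  have h6 : (b : ℝ) ^ K * (c * (c * t * K) + c) ≤ (b : ℝ) ^ K * (2 * (C : ℝ) ^ 2) := by
    calc _ = c * (b : ℝ) ^ K * (c * t * K + 1) := by ring
      _ ≤ _ := h5
      _ = _ := by ring
  have h7 := le_of_mul_le_mul_left h6 hx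
  linarith

end Pool.Agent.Helper45.HD
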