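import Pool.Agent.Helper45.HD.Glue
import Pool.Agent.Helper45.HD.SetForm
import Pool.Agent.Helper7.SC.Main
import Pool.Agent.Helper7.SC.A4
import Pool.Agent.Helper99.SC.Pars
import Pool.Agent.Helper99.HD.StR
import Pool.Agent.Helper43.HD.C2
import Pool.Agent.Helper81.SC.StE
import Pool.Agent.Helper72.HD.In
import Pool.Agent.Helper37.HD.Pi

set_option autoImplicit false

/-! Hidden digits: the theorem. -/

namespace Pool.Agent.Helper45.HD

/-- the theorem for randomised guesses of small influence -/
theorem stR : StR :=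
  Pool.Agent.Helper99.HD.stR
    (Pool.Agent.Helper43.HD.stC2 Pool.Agent.Helper99.SC.stT Pool.Agent.Helper99.SC.stL
      Pool.Agent.Helper81.SC.stEn)
    Pool.Agent.Helper7.SC.stA1 Pool.Agent.Helper99.SC.stA2 Pool.Agent.Helper99.SC.stA3
    Pool.Agent.Helper7.SC.stA4

/-- hidden digits -/
theorem stHD : StHD :=
  stHD_of (Pool.Agent.Helper37.HD.stPi Pool.Agent.Helper72.HD.stIn) stR

end Pool.Agent.Helper45.HD
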